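import Mathlib

/-!
Rigidity of free actions of the rank two lattice under finitary perturbation.
-/

namespace Pool.Agent.MP_e3ce59_an.H41

open Filter Equiv

variable {Ω : Type*}

/-- two maps agree outside a finite set -/
def Near {Ω' : Type*} (f g : Ω → Ω') : Prop := {x | f x ≠ g x}.Finite

lemma Near.refl {Ω' : Type*} (f : Ω → Ω') : Near f f := by simp [Near]

lemma Near.symm {Ω' : Type*} {f g : Ω → Ω'} (h : Near f g) : Near g f := by
  unfold Near at *
  simpa only [ne_comm] using h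

lemma Near.trans {Ω' : Type*} {f g k : Ω → Ω'} (h : Near f g) (h' : Near g k) : Near f k := by
  refine (h.union h').subset fun x hx => ?_
  by_contra hc
  simp only [Set.mem_union, Set.mem_ofPred_eq, not_or, not_not] at hc
  exact hx (hc.1.trans hc.2)

lemma Near.comp_left {Ω' Ω'' : Type*} {f g : Ω → Ω'} (h : Near f g) (k : Ω' → Ω'') :
    Near (k ∘ f) (k ∘ g) :=
  h.subset fun x hx hc => hx (by simp only [Function.comp_apply, hc])

lemma Near.comp_right {Ω' Ω'' : Type*} {f g : Ω → Ω'} (h : Near f g) {k : Ω'' → Ω}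
    (hk : Function.Injective k) : Near (f ∘ k) (g ∘ k) :=
  h.preimage hk.injOn

lemma Near.mul {f g f' g' : Perm Ω} (h : Near f f') (h' : Near g g') :
    Near (⇑(f * g)) (⇑(f' * g')) :=
  (h.comp_right g.injective).trans (h'.comp_left f')

lemma Near.pow {f f' : Perm Ω} (h : Near f f') (n : ℕ) : Near (⇑(f ^ n)) (⇑(f' ^ n)) := by
  induction n with
  | zero => simpa using Near.refl _
  | succ n ih => rw [pow_succ, pow_succ]; exact ih.mul h

lemma Near.inv {f f' : Perm Ω} (h : Near f f') : Near (⇑f⁻¹) (⇑f'⁻¹) := by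
  have h1 : Near (⇑(f'⁻¹ * (f * f⁻¹))) (⇑(f'⁻¹ * (f' * f⁻¹))) :=
    Near.mul (Near.refl _) (Near.mul h (Near.refl _))
  simpa using h1.symm

lemma escape (a : Perm Ω) (hfree : ∀ n : ℤ, n ≠ 0 → ∀ x, (a ^ n) x ≠ x) {E : Set Ω}
    (hE : E.Finite) (x : Ω) : ∀ᶠ n : ℕ in atTop, (a ^ n) x ∉ E := by
  have hinj : Function.Injective fun n : ℕ => (a ^ n) x := by
    intro m n hmn
    by_contra hne
    refine hfree ((m : ℤ) - n) (by omega) x ?_
    have : a ^ ((m : ℤ) - n) = (a ^ n)⁻¹ * a ^ m := by group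
    rw [this, Perm.mul_apply]
    simp only at hmn
    rw [hmn]; simp
  rw [← Nat.cofinite_eq_atTop, Filter.eventually_cofinite]
  simp only [not_not]
  exact hE.preimage hinj.injOn

theorem rigid (a b a' b' : Perm Ω) (hab : Commute a b) (hab' : Commute a' b')
    (hfree : ∀ i j : ℤ, (i, j) ≠ (0, 0) → ∀ x, (a ^ i * b ^ j) x ≠ x)
    (ha : Near a a') (hb : Near b b') :
    ∃ Φ : Ω → Ω, Function.Bijective Φ ∧ Near Φ id ∧ (∀ x, Φ (a x) = a' (Φ x)) ∧
      ∀ Ψ : Ω → Ω, Near Ψ id → (∀ x, Ψ (a x) = a' (Ψ x)) → Ψ = Φ := by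
  have hfa : ∀ n : ℤ, n ≠ 0 → ∀ x, (a ^ n) x ≠ x := by
    intro n hn x
    simpa using hfree n 0 (by simp [hn]) x
  let R : Ω → Ω → Prop := fun x z => ∀ᶠ n : ℕ in atTop, (a' ^ n) z = (a ^ n) x
  have hex : ∀ x, ∃ z, R x z := by
    intro x
    obtain ⟨N, hN⟩ := eventually_atTop.1 (escape a hfa ha x)
    refine ⟨(a' ^ N)⁻¹ ((a ^ N) x), eventually_atTop.2 ⟨N, fun n hn => ?_⟩⟩
    induction n, hn using Nat.le_induction with
    | base => simp
    | succ n hn ih =>
      rw [pow_succ', pow_succ', Perm.mul_apply, Perm.mul_apply, ih]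
      have := hN n hn
      simp only [Set.mem_ofPred_eq, not_not] at this
      exact this.symm
  have huniq : ∀ x z z', R x z → R x z' → z = z' := by
    intro x z z' h h'
    obtain ⟨n, h1, h2⟩ := (h.and h').exists
    exact (a' ^ n).injective (h1.trans h2.symm)
  have hstep : ∀ d d' : Perm Ω, Commute a d → Commute a' d' → Near d d' →
      ∀ x z, R x z → R (d x) (d' z) := by
    intro d d' h1 h2 h3 x z h
    filter_upwards [h, escape a hfa h3 x] with n hn hn'
    simp only [not_not] at hn'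
    rw [← Perm.mul_apply, (h2.pow_left n).eq, Perm.mul_apply, hn, ← hn', ← Perm.mul_apply,
      ← (h1.pow_left n).eq, Perm.mul_apply]
  choose Φ hΦ using hex
  have hinj : Function.Injective Φ := by
    intro x y hxy
    obtain ⟨n, h1, h2⟩ := ((hΦ x).and (hΦ y)).exists
    rw [hxy] at h1
    exact (a ^ n).injective (h1.symm.trans h2)
  have havoid : ∀ y, (∀ n : ℕ, (a ^ n) y ∉ {x | a x ≠ a' x}) → Φ y = y := by
    intro y hy
    refine huniq y _ _ (hΦ y) (Eventually.of_forall fun n => ?_)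
    induction n with
    | zero => simp
    | succ n ih =>
      rw [pow_succ', pow_succ', Perm.mul_apply, Perm.mul_apply, ih]
      have := hy n
      simp only [Set.mem_ofPred_eq, not_not] at this
      exact this.symm
  have hnear : Near Φ id := by
    have hbad : {K : ℕ | ∃ p ∈ {x | a x ≠ a' x}, ∃ q ∈ {x | a x ≠ a' x},
        ∃ n : ℤ, (a ^ n * b ^ K) p = q}.Finite := by
      have : {K : ℕ | ∃ p ∈ {x | a x ≠ a' x}, ∃ q ∈ {x | a x ≠ a' x},
          ∃ n : ℤ, (a ^ n * b ^ K) p = q} =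
          ⋃ p ∈ {x | a x ≠ a' x}, ⋃ q ∈ {x | a x ≠ a' x}, {K : ℕ | ∃ n : ℤ, (a ^ n * b ^ K) p = q} := by
        ext K; simp only [Set.mem_ofPred_eq, Set.mem_iUnion, exists_prop]
      rw [this]
      refine Set.Finite.biUnion ha fun p _ => Set.Finite.biUnion ha fun q _ => ?_
      refine Set.Subsingleton.finite ?_
      rintro K ⟨n, hn⟩ K' ⟨n', hn'⟩
      by_contra hne
      refine hfree (n - n') ((K : ℤ) - K') (by simp; omega) p ?_
      have h1 : a ^ (n - n') * b ^ ((K : ℤ) - K') = (a ^ n' * b ^ K')⁻¹ * (a ^ n * b ^ K) := by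
        have h2 : Commute (b ^ (K' : ℤ))⁻¹ (a ^ (n - n')) := by
          rw [← zpow_neg]; exact (hab.symm.zpow_zpow _ _)
        calc a ^ (n - n') * b ^ ((K : ℤ) - K')
            = (a ^ (n - n') * (b ^ (K' : ℤ))⁻¹) * b ^ (K : ℤ) := by group
          _ = ((b ^ (K' : ℤ))⁻¹ * a ^ (n - n')) * b ^ (K : ℤ) := by rw [h2.eq]
          _ = (a ^ n' * b ^ K')⁻¹ * (a ^ n * b ^ K) := by group
      rw [h1, Perm.mul_apply, hn, ← hn']
      exact (a ^ n' * b ^ K').symm_apply_apply p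
    obtain ⟨K, hK⟩ := hbad.exists_notMem
    simp only [Set.mem_ofPred_eq, not_exists, not_and] at hK
    refine (hb.pow K).subset fun x hx => ?_
    by_contra hc
    simp only [Set.mem_ofPred_eq, not_not] at hc
    apply hx
    by_cases h : ∀ n : ℕ, (a ^ n) x ∉ {x | a x ≠ a' x}
    · exact havoid x h
    · push Not at h
      obtain ⟨m, hm⟩ := h
      have h1 : Φ ((b ^ K) x) = (b ^ K) x := by
        refine havoid _ fun n hn => hK _ hm _ hn ((n : ℤ) - m) ?_
        have h2 : Commute (b ^ K) (a ^ m) := hab.symm.pow_pow _ _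
        rw [← Perm.mul_apply, mul_assoc, h2.eq, ← Perm.mul_apply]
        congr 1
        group
      have h2 : Φ ((b ^ K) x) = (b' ^ K) (Φ x) :=
        huniq _ _ _ (hΦ _) (hstep _ _ (hab.pow_right K) (hab'.pow_right K) (hb.pow K) _ _ (hΦ x))
      exact (b' ^ K).injective (by rw [← h2, h1, hc]; rfl)
  refine ⟨Φ, ⟨hinj, ?_⟩, hnear, fun x => huniq _ _ _ (hΦ _)
    (hstep a a' (Commute.refl _) (Commute.refl _) ha _ _ (hΦ x)), ?_⟩
  · intro y
    by_cases hy : Φ y = y
    · exact ⟨y, hy⟩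
    · have hmaps : Set.MapsTo Φ {x | Φ x ≠ id x} {x | Φ x ≠ id x} := by
        intro x hx hc
        exact hx (hinj hc)
      obtain ⟨x, -, hx⟩ := (Set.Finite.surjOn_iff_bijOn_of_mapsTo hnear hmaps).2
        ((Set.Finite.injOn_iff_bijOn_of_mapsTo hnear hmaps).1 hinj.injOn) (show y ∈ _ from hy)
      exact ⟨x, hx⟩
  · intro Ψ h1 h2
    funext x
    refine huniq x _ _ ?_ (hΦ x)
    filter_upwards [escape a hfa h1 x] with n hn
    simp only [not_not, id] at hn
    rw [← hn]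
    clear hn
    induction n with
    | zero => simp
    | succ n ih => rw [pow_succ', pow_succ', Perm.mul_apply, Perm.mul_apply, ih, h2]

/-- a perturbation of a normalising permutation is conjugate to it -/
theorem rigid_conj (a b c a' b' c' : Perm Ω) (hab : Commute a b) (hab' : Commute a' b')
    (hfree : ∀ i j : ℤ, (i, j) ≠ (0, 0) → ∀ x, (a ^ i * b ^ j) x ≠ x)
    (ha : Near a a') (hb : Near b b') (hc : Near c c')
    (h : (c * a = a * c ∧ c' * a' = a' * c') ∨ (c * a = a⁻¹ * c ∧ c' * a' = a'⁻¹ * c')) :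
    (∃ x, c x = x) ↔ ∃ x, c' x = x := by
  obtain ⟨Φ, hbij, hnear, hint, huniq⟩ := rigid a b a' b' hab hab' hfree ha hb
  have hint' : ∀ x, Φ (a⁻¹ x) = a'⁻¹ (Φ x) := by
    intro x
    rw [Perm.eq_inv_iff_eq, ← hint]; simp
  have key : (fun x => c'⁻¹ (Φ (c x))) = Φ := by
    refine huniq _ ?_ ?_
    · have h1 : Near (⇑c'⁻¹ ∘ Φ ∘ c) (⇑c'⁻¹ ∘ id ∘ c) :=
        (hnear.comp_right c.injective).comp_left _
      have h2 : Near (⇑c'⁻¹ ∘ ⇑c) (⇑c'⁻¹ ∘ ⇑c') := hc.comp_left _
      have h3 : (⇑c'⁻¹ ∘ ⇑c') = id := by funext x; simp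
      rw [h3] at h2
      exact h1.trans h2
    · intro x
      rcases h with ⟨h1, h2⟩ | ⟨h1, h2⟩
      · rw [← Perm.mul_apply c a, h1, Perm.mul_apply, hint, Perm.inv_eq_iff_eq,
          ← Perm.mul_apply c' a', h2]
        simp
      · rw [← Perm.mul_apply c a, h1, Perm.mul_apply, hint', Perm.inv_eq_iff_eq,
          ← Perm.mul_apply c' a', h2]
        simp
  have key' : ∀ x, Φ (c x) = c' (Φ x) := by
    intro x
    have : c'⁻¹ (Φ (c x)) = Φ x := congrFun key x
    rw [Perm.inv_eq_iff_eq] at this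
    exact this
  constructor
  · rintro ⟨x, hx⟩
    exact ⟨Φ x, by rw [← key', hx]⟩
  · rintro ⟨z, hz⟩
    obtain ⟨x, rfl⟩ := hbij.2 z
    exact ⟨x, hbij.1 (by rw [key', hz])⟩

end Pool.Agent.MP_e3ce59_an.H41
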