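import Mathlib
import Pool.Agent.MP_e3ce59_an.H41.Rigid

/-!
The circle cut in two halves, each closed up to a circle in a projective coordinate.
-/

namespace Pool.Agent.MP_e3ce59_an.H41

open Filter Equiv Topology

/-- the circle -/
abbrev S := AddCircle (1 : ℝ)

/-- representative in the half open unit interval -/
noncomputable def rep (x : S) : ℝ := (AddCircle.equivIco 1 0 x : ℝ)

lemma rep_nonneg (x : S) : 0 ≤ rep x := (AddCircle.equivIco 1 0 x).2.1

lemma rep_lt (x : S) : rep x < 1 := by
  have : rep x < 0 + 1 := (AddCircle.equivIco 1 0 x).2.2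
  linarith

lemma coe_rep (x : S) : ((rep x : ℝ) : S) = x := AddCircle.coe_equivIco

lemma rep_coe {y : ℝ} (h0 : 0 ≤ y) (h1 : y < 1) : rep (y : S) = y := by
  unfold rep
  rw [AddCircle.equivIco_coe_eq (show y ∈ Set.Ico (0 : ℝ) (0 + 1) from ⟨h0, by simpa⟩)]

lemma coe_ne_zero {y : ℝ} (h0 : 0 < y) (h1 : y < 1) : (y : S) ≠ 0 := by
  intro h
  have h2 := rep_coe h0.le h1
  have h3 := rep_coe (le_refl (0 : ℝ)) one_pos
  rw [h] at h2
  simp only [AddCircle.coe_zero] at h3
  linarith

lemma coe_one' : ((1 : ℝ) : S) = 0 := AddCircle.coe_period 1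

lemma rep_pos {x : S} (hx : x ≠ 0) : 0 < rep x := by
  rcases (rep_nonneg x).lt_or_eq with h | h
  · exact h
  · exfalso; apply hx; rw [← coe_rep x, ← h]; simp

lemma continuousAt_rep {x : S} (hx : x ≠ 0) : ContinuousAt rep x :=
  continuous_subtype_val.continuousAt.comp (AddCircle.continuousAt_equivIco 1 0 (by simpa using hx))

/-- the point one half -/
noncomputable def half : S := ((1 / 2 : ℝ) : S)

lemma rep_half : rep half = 1 / 2 := rep_coe (by norm_num) (by norm_num)

lemma half_ne_zero : half ≠ 0 := coe_ne_zero (by norm_num) (by norm_num)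

lemma neg_half : -half = half := by
  rw [neg_eq_iff_add_eq_zero, half, ← AddCircle.coe_add]
  norm_num

lemma rep_ne_half {x : S} (hx : x ≠ half) : rep x ≠ 1 / 2 := by
  intro h; apply hx; rw [← coe_rep x, h]; rfl

/-- the projective coordinate -/
noncomputable def mf (x : ℝ) : ℝ := 3 * x / (x + 1)

/-- its inverse -/
noncomputable def nf (y : ℝ) : ℝ := y / (3 - y)

lemma nf_mf {x : ℝ} (hx : 0 ≤ x) : nf (mf x) = x := by
  unfold nf mf
  have : x + 1 ≠ 0 := by linarith
  field_simp
  ring

lemma mf_nf {y : ℝ} (hy : y < 1) : mf (nf y) = y := by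
  unfold nf mf
  have : 3 - y ≠ 0 := by linarith
  field_simp
  ring

lemma mf_nonneg {x : ℝ} (hx : 0 ≤ x) : 0 ≤ mf x := by unfold mf; positivity

lemma mf_pos {x : ℝ} (hx : 0 < x) : 0 < mf x := by unfold mf; positivity

lemma mf_lt {x : ℝ} (hx : 0 ≤ x) (h : x < 1 / 2) : mf x < 1 := by
  unfold mf; rw [div_lt_one (by linarith)]; linarith

lemma nf_nonneg {y : ℝ} (hy : 0 ≤ y) (h : y < 1) : 0 ≤ nf y := by
  unfold nf; exact div_nonneg hy (by linarith)

lemma nf_pos {y : ℝ} (hy : 0 < y) (h : y < 1) : 0 < nf y := by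
  unfold nf; exact div_pos hy (by linarith)

lemma nf_lt {y : ℝ} (h : y < 1) : nf y < 1 / 2 := by
  unfold nf; rw [div_lt_iff₀ (by linarith)]; linarith

lemma mf_half : mf (1 / 2) = 1 := by unfold mf; norm_num

open Classical in
/-- the circle as two circles -/
noncomputable def cut : S ≃ S × Bool where
  toFun x := if rep x < 1 / 2 then (((mf (rep x) : ℝ) : S), false)
    else (((mf (1 - rep x) : ℝ) : S), true)
  invFun p := if p.2 then (if p.1 = 0 then half else ((1 - nf (rep p.1) : ℝ) : S))
    else ((nf (rep p.1) : ℝ) : S)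
  left_inv x := by
    have h0 := rep_nonneg x
    have h1 := rep_lt x
    by_cases h : rep x < 1 / 2
    · simp only [if_pos h, Bool.false_eq_true, if_false]
      rw [rep_coe (mf_nonneg h0) (mf_lt h0 h), nf_mf h0, coe_rep]
    · simp only [if_neg h, if_true]
      by_cases h2 : rep x = 1 / 2
      · rw [h2, show (1 : ℝ) - 1 / 2 = 1 / 2 by norm_num, mf_half, coe_one', if_pos rfl,
          ← coe_rep x, h2]; rfl
      · have h3 : 1 - rep x < 1 / 2 := by
          rcases (not_lt.1 h).lt_or_eq with h4 | h4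
          · linarith
          · exact absurd h4.symm h2
        have h4 : 0 < 1 - rep x := by linarith
        rw [if_neg (coe_ne_zero (mf_pos h4) (mf_lt h4.le h3)),
          rep_coe (mf_nonneg h4.le) (mf_lt h4.le h3), nf_mf h4.le, sub_sub_cancel, coe_rep]
  right_inv := by
    rintro ⟨y, b⟩
    have h0 := rep_nonneg y
    have h1 := rep_lt y
    cases b
    · simp only [Bool.false_eq_true, if_false]
      rw [rep_coe (nf_nonneg h0 h1) (by linarith [nf_lt h1]), if_pos (nf_lt h1), mf_nf h1, coe_rep]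
    · simp only [if_true]
      by_cases hy : y = 0
      · rw [if_pos hy, rep_half, if_neg (lt_irrefl _), show (1 : ℝ) - 1 / 2 = 1 / 2 by norm_num,
          mf_half, coe_one', hy]
      · have h2 := nf_pos (rep_pos hy) h1
        have h3 := nf_lt h1
        rw [if_neg hy, rep_coe (by linarith) (by linarith), if_neg (by linarith), sub_sub_cancel,
          mf_nf h1, coe_rep]

lemma cut_lt {x : S} (h : rep x < 1 / 2) : cut x = (((mf (rep x) : ℝ) : S), false) := if_pos h

lemma cut_ge {x : S} (h : ¬ rep x < 1 / 2) : cut x = (((mf (1 - rep x) : ℝ) : S), true) := if_neg h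

/-- continuous outside a finite set -/
def PC {A B : Type*} [TopologicalSpace A] [TopologicalSpace B] (f : A → B) : Prop :=
  ∃ F : Set A, F.Finite ∧ ∀ x, x ∉ F → ContinuousAt f x

lemma PC.comp {A B C : Type*} [TopologicalSpace A] [TopologicalSpace B] [TopologicalSpace C]
    {g : B → C} {f : A → B} (hg : PC g) (hf : PC f) (hi : Function.Injective f) : PC (g ∘ f) := by
  obtain ⟨F, hF, h1⟩ := hf
  obtain ⟨G, hG, h2⟩ := hg
  refine ⟨F ∪ f ⁻¹' G, hF.union (hG.preimage hi.injOn), fun x hx => ?_⟩
  simp only [Set.mem_union, Set.mem_preimage, not_or] at hx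
  exact (h2 _ hx.2).comp (h1 _ hx.1)

lemma PC.of_continuous {A B : Type*} [TopologicalSpace A] [TopologicalSpace B] {f : A → B}
    (hf : Continuous f) : PC f := ⟨∅, Set.finite_empty, fun _ _ => hf.continuousAt⟩

lemma PC.of_near {A B : Type*} [TopologicalSpace A] [T1Space A] [TopologicalSpace B] {f g : A → B}
    (hf : PC f) (h : Near f g) : PC g := by
  obtain ⟨F, hF, h1⟩ := hf
  refine ⟨F ∪ {x | f x ≠ g x}, hF.union h, fun x hx => ?_⟩
  simp only [Set.mem_union, not_or] at hx
  refine (h1 x hx.1).congr ?_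
  filter_upwards [(Set.Finite.isClosed h).isOpen_compl.mem_nhds hx.2] with y hy
  simpa using hy

lemma continuousAt_mf {x : ℝ} (hx : 0 ≤ x) : ContinuousAt mf x := by
  unfold mf
  exact ContinuousAt.div (by fun_prop) (by fun_prop) (by linarith)

lemma continuousAt_nf {y : ℝ} (hy : y < 1) : ContinuousAt nf y := by
  unfold nf
  exact ContinuousAt.div (by fun_prop) (by fun_prop) (by linarith)

lemma continuous_coe : Continuous fun y : ℝ => (y : S) := AddCircle.continuous_mk' 1

lemma pc_cut : PC cut := by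
  refine ⟨{0, half}, Set.toFinite _, fun x hx => ?_⟩
  simp only [Set.mem_insert_iff, Set.mem_singleton_iff, not_or] at hx
  have hc := continuousAt_rep hx.1
  rcases lt_or_gt_of_ne (rep_ne_half hx.2) with h | h
  · have h1 : ContinuousAt (fun z : S => ((((mf (rep z) : ℝ) : S), false) : S × Bool)) x :=
      (continuous_coe.continuousAt.comp ((continuousAt_mf (rep_nonneg x)).comp hc)).prodMk
        continuousAt_const
    refine h1.congr ?_
    filter_upwards [hc.eventually_lt continuousAt_const h] with z hz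
    exact (cut_lt hz).symm
  · have h2 : ContinuousAt (fun z : S => 1 - rep z) x := continuousAt_const.sub hc
    have h3 : ContinuousAt (fun z : S => mf (1 - rep z)) x :=
      ContinuousAt.comp (f := fun z : S => 1 - rep z) (continuousAt_mf (by linarith [rep_lt x])) h2
    have h1 : ContinuousAt (fun z : S => ((((mf (1 - rep z) : ℝ) : S), true) : S × Bool)) x :=
      (continuous_coe.continuousAt.comp h3).prodMk continuousAt_const
    refine h1.congr ?_
    filter_upwards [continuousAt_const.eventually_lt hc h] with z hz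
    exact (cut_ge (not_lt.2 hz.le)).symm

lemma pc_cut_symm : PC cut.symm := by
  refine ⟨{(0, false), (0, true)}, Set.toFinite _, ?_⟩
  rintro ⟨y, b⟩ hx
  have hy : y ≠ 0 := by
    rintro rfl
    cases b <;> simp at hx
  have hc : ContinuousAt (fun p : S × Bool => nf (rep p.1)) (y, b) :=
    ContinuousAt.comp (f := fun p : S × Bool => rep p.1) (continuousAt_nf (rep_lt y))
      (ContinuousAt.comp (f := fun p : S × Bool => p.1) (continuousAt_rep hy) continuousAt_fst)
  have e1 : ∀ᶠ p : S × Bool in 𝓝 (y, b), p.2 = b :=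
    continuousAt_snd.eventually (p := fun c : Bool => c = b) (by simp [nhds_discrete])
  have e2 : ∀ᶠ p : S × Bool in 𝓝 (y, b), p.1 ≠ 0 :=
    continuousAt_fst.eventually_ne hy
  cases b
  · refine (continuous_coe.continuousAt.comp hc).congr ?_
    filter_upwards [e1] with p hp
    show _ = if p.2 then _ else _
    simp [hp]
  · refine (continuous_coe.continuousAt.comp (continuousAt_const.sub hc (f := fun _ => (1 : ℝ)))).congr ?_
    filter_upwards [e1, e2] with p hp hp2
    show _ = if p.2 then _ else _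
    simp [hp, hp2]

/-- simultaneous rotation of the two circles -/
noncomputable def bperm (ρ : S) : Perm S :=
  (cut.trans (Equiv.prodCongr (Equiv.addRight ρ) (Equiv.refl Bool))).trans cut.symm

lemma cut_bperm (ρ x : S) : cut (bperm ρ x) = ((cut x).1 + ρ, (cut x).2) := by
  simp [bperm, Prod.map]

lemma bperm_add (ρ σ : S) : bperm (ρ + σ) = bperm ρ * bperm σ := by
  ext x
  apply cut.injective
  simp only [Perm.mul_apply, cut_bperm]
  congr 1
  abel

lemma bperm_zero : bperm 0 = 1 := by
  ext x
  apply cut.injective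
  simp [cut_bperm]

lemma pc_bperm (ρ : S) : PC (bperm ρ) := by
  have h1 : PC (Equiv.prodCongr (Equiv.addRight ρ) (Equiv.refl Bool)) := by
    apply PC.of_continuous
    exact (continuous_add_const ρ).prodMap continuous_id
  exact pc_cut_symm.comp (h1.comp pc_cut cut.injective)
    ((Equiv.prodCongr (Equiv.addRight ρ) (Equiv.refl Bool)).injective.comp cut.injective)

/-- exchange of the two circles -/
noncomputable def cB : Perm S :=
  (cut.trans (Equiv.prodCongr (Equiv.refl S) Equiv.boolNot)).trans cut.symm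

lemma cut_cB (x : S) : cut (cB x) = ((cut x).1, !(cut x).2) := by
  simp [cB, Prod.map]

lemma cB_comm (ρ : S) : cB * bperm ρ = bperm ρ * cB := by
  ext x
  apply cut.injective
  simp only [Perm.mul_apply, cut_bperm, cut_cB]

lemma cB_ne (x : S) : cB x ≠ x := by
  intro h
  have := cut_cB x
  rw [h] at this
  simpa using congrArg Prod.snd this

lemma rep_zero : rep 0 = 0 := by simpa using rep_coe (le_refl (0 : ℝ)) one_pos

lemma cut_zero : cut 0 = (0, false) := by
  rw [cut_lt (by rw [rep_zero]; norm_num), rep_zero]; simp [mf]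

lemma cut_half : cut half = (0, true) := by
  rw [cut_ge (by rw [rep_half]; exact lt_irrefl _), rep_half,
    show (1 : ℝ) - 1 / 2 = 1 / 2 by norm_num, mf_half, coe_one']

lemma cB_zero : cB 0 = half := by
  apply cut.injective; rw [cut_cB, cut_zero, cut_half]; rfl

lemma cB_half : cB half = 0 := by
  apply cut.injective; rw [cut_cB, cut_zero, cut_half]; rfl

lemma rep_neg {x : S} (hx : x ≠ 0) : rep (-x) = 1 - rep x := by
  have h : -x = ((1 - rep x : ℝ) : S) := by
    rw [AddCircle.coe_sub, coe_one', coe_rep, zero_sub]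
  rw [h, rep_coe (by linarith [rep_lt x]) (by linarith [rep_pos hx])]

lemma cB_eq {x : S} (h0 : x ≠ 0) (h1 : x ≠ half) : cB x = -x := by
  apply cut.injective
  rw [cut_cB]
  rcases lt_or_gt_of_ne (rep_ne_half h1) with h | h
  · rw [cut_lt h, cut_ge (by rw [rep_neg h0]; linarith), rep_neg h0, sub_sub_cancel]; rfl
  · rw [cut_ge (not_lt.2 h.le), cut_lt (by rw [rep_neg h0]; linarith), rep_neg h0]; rfl

lemma coe_eq_add {u v w : ℝ} (h : (u : S) = (v : S) + (w : S)) : ∃ k : ℤ, u = v + (w + k) := by
  rw [← AddCircle.coe_add, ← sub_eq_zero, ← AddCircle.coe_sub, AddCircle.coe_eq_zero_iff] at h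
  obtain ⟨k, hk⟩ := h
  exact ⟨k, by simp at hk; linarith⟩

lemma bperm_local (ρ : ℝ) (x : S) :
    ∃ k : ℤ, mf (rep (bperm ρ x)) = mf (rep x) + (ρ + k) ∨
      mf (1 - rep (bperm ρ x)) = mf (1 - rep x) + (ρ + k) := by
  have h := cut_bperm ρ x
  by_cases h1 : rep x < 1 / 2 <;> by_cases h2 : rep (bperm ρ x) < 1 / 2
  · rw [cut_lt h1, cut_lt h2] at h
    obtain ⟨k, hk⟩ := coe_eq_add (congrArg Prod.fst h)
    exact ⟨k, Or.inl hk⟩
  · rw [cut_lt h1, cut_ge h2] at h
    simpa using congrArg Prod.snd h
  · rw [cut_ge h1, cut_lt h2] at h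
    simpa using congrArg Prod.snd h
  · rw [cut_ge h1, cut_ge h2] at h
    obtain ⟨k, hk⟩ := coe_eq_add (congrArg Prod.fst h)
    exact ⟨k, Or.inr hk⟩

end Pool.Agent.MP_e3ce59_an.H41
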