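import Mathlib

/-!
Products of parabolic matrices with a generic parameter are not scalar.
-/

namespace Pool.Agent.MP_e3ce59_an.H41

open Matrix Polynomial

/-- a letter: the factor it belongs to and a lattice element -/
abbrev Letter := Bool × (ℤ × ℤ)

/-- a letter with the data of the local branch -/
abbrev DLetter := Letter × (ℤ × Bool)

/-- reduced words -/
def Red : List Letter → Prop
  | [] => True
  | [p] => p.2 ≠ 0
  | p :: q :: L => p.2 ≠ 0 ∧ p.1 ≠ q.1 ∧ Red (q :: L)

lemma Red.tail {p : Letter} {L : List Letter} (h : Red (p :: L)) : Red L := by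
  cases L with
  | nil => trivial
  | cons q L => exact h.2.2

lemma Red.head {p : Letter} {L : List Letter} (h : Red (p :: L)) : p.2 ≠ 0 := by
  cases L with
  | nil => exact h
  | cons q L => exact h.1

variable (α β : ℝ)

/-- the real number attached to a lattice element -/
def val (p : ℤ × ℤ) : ℝ := p.1 * α + p.2 * β

/-- the matrix of a branch -/
def mat {R : Type*} [CommRing R] [Algebra ℝ R] (s : R) (d : DLetter) : Matrix (Fin 2) (Fin 2) R :=
  let r : R := algebraMap ℝ R (val α β d.1.2) + d.2.1 * s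
  if d.1.1 then
    (if d.2.2 then !![3 * s + 2 * r, -4 * r; r, 3 * s - 2 * r] else !![3 * s + r, r; -r, 3 * s - r])
  else !![1, algebraMap ℝ R (val α β d.1.2) + d.2.1; 0, 1]

/-- the matrix of a word -/
def matW {R : Type*} [CommRing R] [Algebra ℝ R] (s : R) (D : List DLetter) :
    Matrix (Fin 2) (Fin 2) R := (D.map (mat α β s)).prod

lemma matW_cons {R : Type*} [CommRing R] [Algebra ℝ R] (s : R) (d : DLetter) (D : List DLetter) :
    matW α β s (d :: D) = mat α β s d * matW α β s D := by simp [matW]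

lemma matW_eval (s : ℝ) (D : List DLetter) :
    (matW α β (X : ℝ[X]) D).map (eval s) = matW α β s D := by
  induction D with
  | nil =>
    ext i j; fin_cases i <;> fin_cases j <;> simp [matW]
  | cons d D ih =>
    rw [matW_cons, matW_cons, ← ih]
    have h1 : (mat α β (X : ℝ[X]) d).map (eval s) = mat α β s d := by
      unfold mat
      ext i j
      split_ifs <;> fin_cases i <;> fin_cases j <;> simp
    rw [← h1]
    exact Matrix.map_mul (f := evalRingHom s)

/-- not a scalar matrix -/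
def NonScalar (M : Matrix (Fin 2) (Fin 2) ℝ) : Prop := M 0 1 ≠ 0 ∨ M 1 0 ≠ 0 ∨ M 0 0 ≠ M 1 1

lemma det_mat (s : ℝ) (d : DLetter) :
    (mat α β s d).det = if d.1.1 then 9 * s ^ 2 else 1 := by
  unfold mat
  split_ifs <;> simp [Matrix.det_fin_two] <;> ring

lemma det_matW_pos {s : ℝ} (hs : s ≠ 0) (D : List DLetter) : 0 < (matW α β s D).det := by
  induction D with
  | nil => simp [matW]
  | cons d D ih =>
    rw [matW_cons, Matrix.det_mul, det_mat]
    refine mul_pos ?_ ih
    split_ifs <;> positivity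

variable {α β}

lemma zero_vec (h : ∀ (p : ℤ × ℤ) (k : ℤ), p ≠ 0 → val α β p + k ≠ 0) :
    ∀ (D : List DLetter) (d : DLetter), Red ((d :: D).map Prod.fst) →
      ∃ y0 y t : ℝ, t ≠ 0 ∧ matW α β (0 : ℝ) (d :: D) *ᵥ ![y0, 1] = t • ![y, 1] ∧
        (d.1.1 = true ↔ (y = -1 ∨ y = 2)) := by
  have stepB : ∀ (d : DLetter) (y : ℝ), d.1.2 ≠ 0 → d.1.1 = true → ¬ (y = -1 ∨ y = 2) →
      ∃ y' t : ℝ, t ≠ 0 ∧ mat α β (0 : ℝ) d *ᵥ ![y, 1] = t • ![y', 1] ∧ (y' = -1 ∨ y' = 2) := by
    intro d y h1 h2 h3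
    have hv : val α β d.1.2 ≠ 0 := by simpa using h _ 0 h1
    push Not at h3
    by_cases h4 : d.2.2 = true
    · refine ⟨2, val α β d.1.2 * (y - 2), mul_ne_zero hv (sub_ne_zero.2 h3.2), ?_, Or.inr rfl⟩
      unfold mat
      ext i
      fin_cases i <;> simp [h2, h4, Matrix.mulVec, dotProduct, Fin.sum_univ_two] <;> ring
    · refine ⟨-1, -val α β d.1.2 * (y + 1), mul_ne_zero (neg_ne_zero.2 hv)
        (fun hc => h3.1 (by linarith)), ?_, Or.inl rfl⟩
      unfold mat
      ext i
      fin_cases i <;> simp [h2, h4, Matrix.mulVec, dotProduct, Fin.sum_univ_two] <;> ring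
  have stepA : ∀ (d : DLetter) (y : ℝ), d.1.2 ≠ 0 → ¬ d.1.1 = true → (y = -1 ∨ y = 2) →
      ∃ y' t : ℝ, t ≠ 0 ∧ mat α β (0 : ℝ) d *ᵥ ![y, 1] = t • ![y', 1] ∧ ¬ (y' = -1 ∨ y' = 2) := by
    intro d y h1 h2 h3
    refine ⟨y + (val α β d.1.2 + d.2.1), 1, one_ne_zero, ?_, ?_⟩
    · unfold mat
      ext i
      fin_cases i <;> simp [h2, Matrix.mulVec, dotProduct, Fin.sum_univ_two]
    · rintro (h4 | h4) <;> rcases h3 with h3 | h3
      · exact h _ d.2.1 h1 (by linarith)
      · exact h _ (d.2.1 + 3) h1 (by push_cast; linarith)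
      · exact h _ (d.2.1 - 3) h1 (by push_cast; linarith)
      · exact h _ d.2.1 h1 (by linarith)
  intro D
  induction D with
  | nil =>
    intro d hd
    have hd' : d.1.2 ≠ 0 := hd
    by_cases h2 : d.1.1 = true
    · obtain ⟨y', t, h3, h4, h5⟩ := stepB d 0 hd' h2 (by norm_num)
      exact ⟨0, y', t, h3, by simpa [matW] using h4, by simp [h2, h5]⟩
    · obtain ⟨y', t, h3, h4, h5⟩ := stepA d 2 hd' h2 (by norm_num)
      exact ⟨2, y', t, h3, by simpa [matW] using h4, iff_of_false h2 h5⟩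
  | cons e D ih =>
    intro d hd
    obtain ⟨y0, y, t, ht, h1, h2⟩ := ih e hd.2.2
    have hne : d.1.1 ≠ e.1.1 := hd.2.1
    by_cases h3 : d.1.1 = true
    · have : ¬ (y = -1 ∨ y = 2) := fun hc => hne (h3.trans (h2.2 hc).symm)
      obtain ⟨y', t', h4, h5, h6⟩ := stepB d y hd.1 h3 this
      refine ⟨y0, y', t * t', mul_ne_zero ht h4, ?_, by simp [h3, h6]⟩
      rw [matW_cons, ← Matrix.mulVec_mulVec, h1, Matrix.mulVec_smul, h5, smul_smul]
    · have : y = -1 ∨ y = 2 := by
        apply h2.1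
        cases h4 : e.1.1
        · exfalso; apply hne; rw [h4]; simpa using h3
        · rfl
      obtain ⟨y', t', h4, h5, h6⟩ := stepA d y hd.1 h3 this
      refine ⟨y0, y', t * t', mul_ne_zero ht h4, ?_, iff_of_false h3 h6⟩
      rw [matW_cons, ← Matrix.mulVec_mulVec, h1, Matrix.mulVec_smul, h5, smul_smul]

lemma nonScalar_zero (h : ∀ (p : ℤ × ℤ) (k : ℤ), p ≠ 0 → val α β p + k ≠ 0)
    (D : List DLetter) (d : DLetter) (hd : Red ((d :: D).map Prod.fst)) :
    NonScalar (matW α β (0 : ℝ) (d :: D)) := by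
  by_cases hA : D = [] ∧ ¬ d.1.1 = true
  · obtain ⟨rfl, h2⟩ := hA
    left
    have := h _ d.2.1 (show d.1.2 ≠ 0 from hd)
    simpa [matW, mat, h2] using this
  · have hdet : (matW α β (0 : ℝ) (d :: D)).det = 0 := by
      by_cases h2 : d.1.1 = true
      · rw [matW_cons, Matrix.det_mul, det_mat]; simp [h2]
      · cases D with
        | nil => exact absurd ⟨rfl, h2⟩ hA
        | cons e D =>
          have hne : d.1.1 ≠ e.1.1 := hd.2.1
          have : e.1.1 = true := by
            cases h4 : e.1.1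
            · exfalso; apply hne; rw [h4]; simpa using h2
            · rfl
          rw [matW_cons, matW_cons, Matrix.det_mul, Matrix.det_mul, det_mat α β 0 e]; simp [this]
    obtain ⟨y0, y, t, ht, h1, -⟩ := zero_vec h D d hd
    by_contra hc
    unfold NonScalar at hc
    push Not at hc
    obtain ⟨c1, c2, c3⟩ := hc
    rw [Matrix.det_fin_two, c1, c2, c3] at hdet
    have h0 : matW α β (0 : ℝ) (d :: D) 1 1 = 0 := by nlinarith
    have := congrFun h1 1
    simp [Matrix.mulVec, dotProduct, Fin.sum_univ_two, c2, h0] at this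
    exact ht this.symm

lemma exists_generic (h : ∀ (p : ℤ × ℤ) (k : ℤ), p ≠ 0 → val α β p + k ≠ 0) :
    ∃ s : ℝ, s ≠ 0 ∧ ∀ D : List DLetter, D ≠ [] → Red (D.map Prod.fst) →
      NonScalar (matW α β s D) := by
  have hfin : ∀ D : List DLetter,
      {s : ℝ | D ≠ [] ∧ Red (D.map Prod.fst) ∧ ¬ NonScalar (matW α β s D)}.Finite := by
    intro D
    by_cases hD : D ≠ [] ∧ Red (D.map Prod.fst)
    · obtain ⟨d, D, rfl⟩ := List.exists_cons_of_ne_nil hD.1
      have h0 := nonScalar_zero h D d hD.2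
      set M := matW α β (X : ℝ[X]) (d :: D) with hM
      have hev : ∀ s i j, matW α β s (d :: D) i j = eval s (M i j) := by
        intro s i j; rw [← matW_eval]; rfl
      have key : ∀ q : ℝ[X], eval 0 q ≠ 0 → {s : ℝ | eval s q = 0}.Finite := by
        intro q hq
        have : q ≠ 0 := by rintro rfl; simp at hq
        exact q.finite_setOfPred_isRoot this
      unfold NonScalar at h0 ⊢
      simp only [hev] at h0 ⊢
      rcases h0 with h0 | h0 | h0
      · exact (key _ h0).subset fun s hs => by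
          have := hs.2.2; push Not at this; exact this.1
      · exact (key _ h0).subset fun s hs => by
          have := hs.2.2; push Not at this; exact this.2.1
      · refine (key (M 0 0 - M 1 1) (by rw [eval_sub]; exact sub_ne_zero.2 h0)).subset
          fun s hs => ?_
        have := hs.2.2; push Not at this
        simp only [Set.mem_ofPred_eq, eval_sub]; exact sub_eq_zero.2 this.2.2
    · convert Set.finite_empty
      ext s; simp only [Set.mem_ofPred_eq, Set.mem_empty_iff_false, iff_false]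
      exact fun hc => hD ⟨hc.1, hc.2.1⟩
  have hc : (insert (0 : ℝ) (⋃ D : List DLetter,
      {s : ℝ | D ≠ [] ∧ Red (D.map Prod.fst) ∧ ¬ NonScalar (matW α β s D)})).Countable :=
    (Set.countable_iUnion fun D => (hfin D).countable).insert 0
  obtain ⟨s, hs⟩ : ∃ s, s ∉ insert (0 : ℝ) (⋃ D : List DLetter,
      {s : ℝ | D ≠ [] ∧ Red (D.map Prod.fst) ∧ ¬ NonScalar (matW α β s D)}) := by
    by_contra hcon
    push Not at hcon
    exact Cardinal.not_countable_real (hc.mono fun x _ => hcon x)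
  simp only [Set.mem_insert_iff, Set.mem_iUnion, Set.mem_ofPred_eq, not_or, not_exists,
    not_and, not_not] at hs
  exact ⟨s, hs.1, hs.2⟩

lemma NonScalar.finite_fix {M : Matrix (Fin 2) (Fin 2) ℝ} (hM : NonScalar M) :
    {x : ℝ | ∃ t : ℝ, M *ᵥ ![x, 1] = t • ![x, 1]}.Finite := by
  let q : ℝ[X] := C (M 1 0) * X ^ 2 + C (M 1 1 - M 0 0) * X - C (M 0 1)
  have hq : q ≠ 0 := by
    intro h0
    have c0 := congrArg (fun p => coeff p 0) h0
    have c1 := congrArg (fun p => coeff p 1) h0
    have c2 := congrArg (fun p => coeff p 2) h0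
    simp [q, coeff_X, coeff_C] at c0 c1 c2
    rcases hM with h | h | h
    · exact h c0
    · exact h c2
    · exact h (by linarith)
  refine (q.finite_setOfPred_isRoot hq).subset ?_
  rintro x ⟨t, ht⟩
  have h0 := congrFun ht 0
  have h1 := congrFun ht 1
  simp [Matrix.mulVec, dotProduct, Fin.sum_univ_two] at h0 h1
  simp only [Set.mem_ofPred_eq, IsRoot.def, q, eval_sub, eval_add, eval_mul, eval_C, eval_pow,
    eval_X]
  rw [← h1] at h0
  linarith

lemma exists_indep : ∃ α β : ℝ, ∀ (p : ℤ × ℤ) (k : ℤ), p ≠ 0 → val α β p + k ≠ 0 := by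
  have hc : (Set.range fun q : ℚ × ℚ => (q.1 : ℝ) * √2 + q.2).Countable := Set.countable_range _
  obtain ⟨β, hβ⟩ : ∃ β, β ∉ Set.range fun q : ℚ × ℚ => (q.1 : ℝ) * √2 + q.2 := by
    by_contra hcon
    push Not at hcon
    exact Cardinal.not_countable_real (hc.mono fun x _ => hcon x)
  refine ⟨√2, β, ?_⟩
  rintro ⟨i, j⟩ k hp h
  unfold val at h
  simp only at h
  by_cases hj : j = 0
  · subst hj
    have hi : i ≠ 0 := fun hi => hp (by rw [hi]; rfl)
    have hi' : (i : ℝ) ≠ 0 := by exact_mod_cast hi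
    refine irrational_sqrt_two ⟨-(k : ℚ) / i, ?_⟩
    push_cast
    field_simp
    simp at h; linarith
  · have hj' : (j : ℝ) ≠ 0 := by exact_mod_cast hj
    refine hβ ⟨(-(i : ℚ) / j, -(k : ℚ) / j), ?_⟩
    push_cast
    field_simp
    linarith

end Pool.Agent.MP_e3ce59_an.H41
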