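import Mathlib
import Pool.Agent.MP_e3ce59_an.H41.Rigid
import Pool.Agent.MP_e3ce59_an.H41.Mat
import Pool.Agent.MP_e3ce59_an.H41.Circle

/-!
The group acting on the circle with two added points.
-/

namespace Pool.Agent.MP_e3ce59_an.H41

open Filter Equiv Topology Matrix Sum

/-- the circle with two added points -/
abbrev S' := S ⊕ Bool

open Classical in
/-- exchanges the two fixed points of the reflection with the two added points -/
noncomputable def ex : Perm S' := swap (inl 0) (inr false) * swap (inl half) (inr true)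

lemma ex_zero : ex (inl 0) = inr false := by
  classical
  unfold ex
  rw [Perm.mul_apply, swap_apply_of_ne_of_ne (a := inl half) (by simpa using half_ne_zero.symm)
    (by simp)]
  simp

lemma ex_half : ex (inl half) = inr true := by
  classical
  unfold ex
  rw [Perm.mul_apply, swap_apply_left, swap_apply_of_ne_of_ne (by simp) (by simp)]

lemma ex_false : ex (inr false) = inl 0 := by
  classical
  unfold ex
  rw [Perm.mul_apply, swap_apply_of_ne_of_ne (a := inl half) (by simp) (by simp)]
  simp

lemma ex_true : ex (inr true) = inl half := by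
  classical
  unfold ex
  rw [Perm.mul_apply, swap_apply_right,
    swap_apply_of_ne_of_ne (by simpa using half_ne_zero) (by simp)]

lemma ex_other {x : S} (h0 : x ≠ 0) (h1 : x ≠ half) : ex (inl x) = inl x := by
  classical
  unfold ex
  rw [Perm.mul_apply, swap_apply_of_ne_of_ne (a := inl half) (by simpa using h1) (by simp),
    swap_apply_of_ne_of_ne (by simpa using h0) (by simp)]

lemma ex_near : Near ex (1 : Perm S') := by
  refine (Set.toFinite {inl 0, inl half, inr false, inr true}).subset ?_
  rintro (x | b) hx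
  · by_contra hc
    simp only [Set.mem_insert_iff, Set.mem_singleton_iff, not_or, inl.injEq] at hc
    exact hx (ex_other hc.1 hc.2.1)
  · cases b <;> simp

/-- the reflection, exchanging the added points -/
noncomputable def cT : Perm S' := Equiv.sumCongr (Equiv.neg S) Equiv.boolNot

lemma cT_mul_ex : cT * ex = ex * Perm.sumCongr cB 1 := by
  ext z : 1
  rcases z with x | b
  · simp only [Perm.mul_apply, Perm.sumCongr_apply, Sum.map_inl]
    by_cases h0 : x = 0
    · subst h0; rw [ex_zero, cB_zero, ex_half]; rfl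
    · by_cases h1 : x = half
      · subst h1; rw [ex_half, cB_half, ex_zero]; rfl
      · rw [ex_other h0 h1, cB_eq h0 h1, ex_other (neg_ne_zero.2 h0)
          (fun hc => h1 (by rw [← neg_neg x, hc, neg_half]))]
        rfl
  · simp only [Perm.mul_apply, Perm.sumCongr_apply, Sum.map_inr, Perm.one_apply]
    cases b
    · rw [ex_false]; simp [cT]
    · rw [ex_true]; simp [cT, neg_half]

lemma cT_mul_cT : cT * cT = 1 := by
  ext z : 1
  rcases z with x | b <;> simp [cT]

variable (α β s : ℝ)

/-- the permutation of the circle attached to a letter -/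
noncomputable def lett0 (p : Letter) : Perm S :=
  if p.1 then bperm ((val α β p.2 / s : ℝ) : S) else Equiv.addRight ((val α β p.2 : ℝ) : S)

/-- the permutation of the enlarged circle attached to a letter -/
noncomputable def lett (p : Letter) : Perm S' :=
  if p.1 then ex * Perm.sumCongr (lett0 α β s p) 1 * ex⁻¹ else Perm.sumCongr (lett0 α β s p) 1

lemma val_add (p q : ℤ × ℤ) : val α β (p + q) = val α β p + val α β q := by
  simp [val]; ring

lemma lett0_add (b : Bool) (p q : ℤ × ℤ) :
    lett0 α β s (b, p + q) = lett0 α β s (b, p) * lett0 α β s (b, q) := by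
  cases b
  · ext x
    simp only [lett0, val_add, Bool.false_eq_true, if_false, AddCircle.coe_add, Perm.mul_apply,
      Equiv.coe_addRight]
    abel
  · simp only [lett0, val_add, if_true, add_div, AddCircle.coe_add, bperm_add]

lemma lett0_zero (b : Bool) : lett0 α β s (b, 0) = 1 := by
  cases b
  · ext x; simp [lett0, val]
  · simp [lett0, val, bperm_zero]

lemma lett_add (b : Bool) (p q : ℤ × ℤ) :
    lett α β s (b, p + q) = lett α β s (b, p) * lett α β s (b, q) := by
  have h : Perm.sumCongr (lett0 α β s (b, p + q)) (1 : Perm Bool) =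
      Perm.sumCongr (lett0 α β s (b, p)) 1 * Perm.sumCongr (lett0 α β s (b, q)) 1 := by
    rw [Perm.sumCongr_mul, lett0_add, one_mul]
  cases b
  · simpa only [lett, Bool.false_eq_true, if_false] using h
  · simp only [lett, if_true, h]; group

lemma lett_zero (b : Bool) : lett α β s (b, 0) = 1 := by
  cases b <;> simp [lett, lett0_zero]

/-- the effect of the reflection on a letter -/
def flip (p : Letter) : Letter := if p.1 then p else (p.1, -p.2)

lemma cT_lett (p : Letter) : cT * lett α β s p = lett α β s (flip p) * cT := by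
  obtain ⟨b, p⟩ := p
  cases b
  · ext z : 1
    rcases z with x | b
    · simp [cT, lett, lett0, flip, val, add_comm]
    · simp [cT, lett, flip]
  · have h1 : cT = ex * Perm.sumCongr cB 1 * ex⁻¹ := by rw [← cT_mul_ex]; group
    have h2 : Perm.sumCongr cB (1 : Perm Bool) * Perm.sumCongr (lett0 α β s (true, p)) 1 =
        Perm.sumCongr (lett0 α β s (true, p)) 1 * Perm.sumCongr cB 1 := by
      rw [Perm.sumCongr_mul, Perm.sumCongr_mul]
      simp only [lett0, if_true, cB_comm]
    simp only [lett, flip, if_true]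
    rw [h1]
    calc ex * Perm.sumCongr cB 1 * ex⁻¹ * (ex * Perm.sumCongr (lett0 α β s (true, p)) 1 * ex⁻¹)
        = ex * (Perm.sumCongr cB 1 * Perm.sumCongr (lett0 α β s (true, p)) 1) * ex⁻¹ := by group
      _ = _ := by rw [h2]; group

/-- the permutation attached to a word -/
noncomputable def word (L : List Letter) : Perm S' := (L.map (lett α β s)).prod

lemma word_cons (p : Letter) (L : List Letter) :
    word α β s (p :: L) = lett α β s p * word α β s L := by simp [word]

lemma cT_word (L : List Letter) : cT * word α β s L = word α β s (L.map flip) * cT := by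
  induction L with
  | nil => simp [word]
  | cons p L ih =>
    rw [List.map_cons, word_cons, word_cons, ← mul_assoc, cT_lett, mul_assoc, ih, mul_assoc]

lemma exists_red (L : List Letter) : ∃ L', Red L' ∧ word α β s L' = word α β s L := by
  induction L with
  | nil => exact ⟨[], trivial, rfl⟩
  | cons p L ih =>
    obtain ⟨L', h1, h2⟩ := ih
    obtain ⟨b, p⟩ := p
    rw [word_cons, ← h2]
    by_cases hp : p = 0
    · exact ⟨L', h1, by rw [hp, lett_zero, one_mul]⟩
    cases L' with
    | nil => exact ⟨[(b, p)], hp, word_cons _ _ _ _ _⟩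
    | cons q L' =>
      obtain ⟨b', q⟩ := q
      by_cases hb : b = b'
      · subst hb
        rw [word_cons, ← mul_assoc, ← lett_add]
        by_cases hpq : p + q = 0
        · exact ⟨L', h1.tail, by rw [hpq, lett_zero, one_mul]⟩
        · refine ⟨(b, p + q) :: L', ?_, word_cons _ _ _ _ _⟩
          cases L' with
          | nil => exact hpq
          | cons r L' => exact ⟨hpq, h1.2.1, h1.2.2⟩
      · exact ⟨(b, p) :: (b', q) :: L', ⟨hp, hb, h1⟩, word_cons _ _ _ _ _⟩

/-- the group acting on the enlarged circle -/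
def Lam : Subgroup (Perm S') := Subgroup.closure (insert cT (Set.range (lett α β s)))

lemma lam_form {g : Perm S'} (hg : g ∈ Lam α β s) :
    ∃ L, g = word α β s L ∨ g = word α β s L * cT := by
  have step : ∀ x ∈ insert cT (Set.range (lett α β s)), ∀ y : Perm S',
      (∃ L, y = word α β s L ∨ y = word α β s L * cT) →
      ∃ L, x * y = word α β s L ∨ x * y = word α β s L * cT := by
    rintro x (rfl | ⟨p, rfl⟩) y ⟨L, rfl | rfl⟩
    · exact ⟨_, Or.inr (cT_word α β s L)⟩
    · exact ⟨L.map flip, Or.inl (by rw [← mul_assoc, cT_word, mul_assoc, cT_mul_cT, mul_one])⟩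
    · exact ⟨p :: L, Or.inl (word_cons _ _ _ _ _).symm⟩
    · exact ⟨p :: L, Or.inr (by rw [word_cons, mul_assoc])⟩
  induction hg using Subgroup.closure_induction_left with
  | one => exact ⟨[], Or.inl (by simp [word])⟩
  | mul_left x hx y _ ih => exact step x hx y ih
  | inv_mul_cancel x hx y _ ih =>
    refine step x⁻¹ ?_ y ih
    rcases hx with rfl | ⟨⟨b, p⟩, rfl⟩
    · left; exact inv_eq_of_mul_eq_one_right cT_mul_cT
    · right
      refine ⟨(b, -p), (inv_eq_of_mul_eq_one_right ?_).symm⟩
      rw [← lett_add, add_neg_cancel, lett_zero]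

/-- `g` agrees with `f` on the circle outside a finite set -/
def Lifts (g : Perm S') (f : Perm S) : Prop := Near (fun x => g (inl x)) (fun x => inl (f x))

lemma Lifts.mul {g g' : Perm S'} {f f' : Perm S} (h : Lifts g f) (h' : Lifts g' f') :
    Lifts (g * g') (f * f') :=
  (Near.comp_left h' g).trans (Near.comp_right h f'.injective)

lemma lifts_one : Lifts 1 1 := Near.refl _

lemma Lifts.inv {g : Perm S'} {f : Perm S} (h : Lifts g f) : Lifts g⁻¹ f⁻¹ := by
  have h1 := (Near.comp_left (Near.comp_right h (f⁻¹).injective) (⇑g⁻¹)).symm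
  refine h1.subset fun x hx hc => hx ?_
  simpa using hc

lemma Lifts.near {g : Perm S'} {f f' : Perm S} (h : Lifts g f) (h' : Lifts g f') : Near f f' :=
  (h.symm.trans h').subset fun _ hx hc => hx (inl.inj hc)

lemma Lifts.of_near {g : Perm S'} {f f' : Perm S} (h : Lifts g f) (h' : Near f f') : Lifts g f' :=
  h.trans (h'.comp_left inl)

lemma lifts_ex : Lifts ex 1 := Near.comp_right ex_near inl_injective

lemma lifts_lett (p : Letter) : Lifts (lett α β s p) (lett0 α β s p) := by
  have h : Lifts (Perm.sumCongr (lett0 α β s p) 1) (lett0 α β s p) := Near.refl _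
  unfold lett
  split_ifs
  · simpa using (lifts_ex.mul h).mul lifts_ex.inv
  · exact h

lemma lifts_cT : Lifts cT (Equiv.neg S) := Near.refl _

lemma pc_lett0 (p : Letter) : PC (lett0 α β s p) := by
  unfold lett0
  split_ifs
  · exact pc_bperm _
  · exact PC.of_continuous (continuous_add_const _)

lemma lam_lifts {g : Perm S'} (hg : g ∈ Lam α β s) : ∃ f, Lifts g f ∧ PC f := by
  obtain ⟨L, hL⟩ := lam_form α β s hg
  have h : ∃ f, Lifts (word α β s L) f ∧ PC f := by
    clear hL
    induction L with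
    | nil => exact ⟨1, by simpa [word] using lifts_one, PC.of_continuous continuous_id⟩
    | cons p L ih =>
      obtain ⟨f, h1, h2⟩ := ih
      exact ⟨lett0 α β s p * f, by rw [word_cons]; exact (lifts_lett α β s p).mul h1,
        (pc_lett0 α β s p).comp h2 f.injective⟩
  obtain ⟨f, h1, h2⟩ := h
  rcases hL with rfl | rfl
  · exact ⟨f, h1, h2⟩
  · exact ⟨f * Equiv.neg S, h1.mul lifts_cT,
      h2.comp (PC.of_continuous continuous_neg) (Equiv.neg S).injective⟩

variable {s}

lemma lett0_local (hs : s ≠ 0) (p : Letter) (x : S) :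
    ∃ (d : ℤ × Bool) (t : ℝ), t ≠ 0 ∧
      mat α β s (p, d) *ᵥ ![rep x, 1] = t • ![rep (lett0 α β s p x), 1] := by
  obtain ⟨b, p⟩ := p
  cases b
  · have h : ((rep (x + (val α β p : ℝ)) : ℝ) : S) = (rep x : ℝ) + (val α β p : ℝ) := by
      rw [coe_rep, coe_rep]
    obtain ⟨k, hk⟩ := coe_eq_add h
    refine ⟨(k, false), 1, one_ne_zero, ?_⟩
    ext i
    fin_cases i <;> simp [mat, lett0, Matrix.mulVec, dotProduct, Fin.sum_univ_two, hk]
  · obtain ⟨k, hk⟩ := bperm_local (val α β p / s) x
    have e : lett0 α β s (true, p) x = bperm ((val α β p / s : ℝ) : S) x := by simp [lett0]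
    rw [e]
    set y := rep (bperm ((val α β p / s : ℝ) : S) x) with hy
    have h0 := rep_nonneg x
    have h1 := rep_lt x
    have h2 : 0 ≤ y := rep_nonneg _
    have h3 : y < 1 := rep_lt _
    set u := rep x
    unfold mf at hk
    rcases hk with hk | hk
    · have hv : val α β p + k * s = s * (3 * y / (y + 1) - 3 * u / (u + 1)) := by
        rw [hk]; field_simp; ring
      refine ⟨(k, false), s * (3 * (u + 1) / (y + 1)), mul_ne_zero hs (by positivity), ?_⟩
      have a1 : u + 1 ≠ 0 := by linarith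
      have a2 : y + 1 ≠ 0 := by linarith
      ext i
      fin_cases i <;> simp [mat, Matrix.mulVec, dotProduct, Fin.sum_univ_two, hv, -mul_eq_mul_left_iff]
        <;> field_simp <;> ring
    · have hv : val α β p + k * s =
          s * (3 * (1 - y) / (1 - y + 1) - 3 * (1 - u) / (1 - u + 1)) := by
        rw [hk]; field_simp; ring
      have a1 : 1 - u + 1 ≠ 0 := by linarith
      have a2 : 1 - y + 1 ≠ 0 := by linarith
      refine ⟨(k, true), s * (3 * (1 - u + 1) / (1 - y + 1)),
        mul_ne_zero hs (div_ne_zero (mul_ne_zero three_ne_zero a1) a2), ?_⟩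
      ext i
      fin_cases i <;> simp [mat, Matrix.mulVec, dotProduct, Fin.sum_univ_two, hv, -mul_eq_mul_left_iff]
        <;> field_simp <;> ring

lemma word_local (hs : s ≠ 0) (L : List Letter) :
    ∃ f : Perm S, Lifts (word α β s L) f ∧ ∀ x, ∃ (D : List DLetter) (t : ℝ),
      D.map Prod.fst = L ∧ t ≠ 0 ∧ matW α β s D *ᵥ ![rep x, 1] = t • ![rep (f x), 1] := by
  induction L with
  | nil => exact ⟨1, by simpa [word] using lifts_one, fun x => ⟨[], 1, rfl, one_ne_zero,
      by simp [matW]⟩⟩
  | cons p L ih =>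
    obtain ⟨f, h1, h2⟩ := ih
    refine ⟨lett0 α β s p * f, by rw [word_cons]; exact (lifts_lett α β s p).mul h1, fun x => ?_⟩
    obtain ⟨D, t, h3, h4, h5⟩ := h2 x
    obtain ⟨d, t', h6, h7⟩ := lett0_local α β hs p (f x)
    refine ⟨(p, d) :: D, t * t', by simp [h3], mul_ne_zero h4 h6, ?_⟩
    rw [matW_cons, ← Matrix.mulVec_mulVec, h5, Matrix.mulVec_smul, h7, smul_smul]
    rfl

lemma rep_injective : Function.Injective rep := fun x y h => by
  rw [← coe_rep x, h, coe_rep]

lemma not_countable_circle : ¬ (Set.univ : Set S).Countable := by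
  intro h
  have h1 : (Set.Ico (0 : ℝ) 1).Countable := by
    refine (h.image rep).mono ?_
    intro y hy
    exact ⟨(y : S), trivial, rep_coe hy.1 hy.2⟩
  have := Cardinal.mk_Ico_real (show (0 : ℝ) < 1 from one_pos)
  rw [← Cardinal.le_aleph0_iff_set_countable, this] at h1
  exact absurd h1 (not_le.2 Cardinal.aleph0_lt_continuum)

/-- no countable family of non scalar matrices describes a finitary permutation -/
lemma not_near_one {ι : Type} [Countable ι] (M : ι → Matrix (Fin 2) (Fin 2) ℝ) (P : ι → Prop)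
    (hM : ∀ i, P i → NonScalar (M i)) (f : S → S) (F : Set S) (hF : F.Finite)
    (hf : ∀ x, x ∉ F → ∃ (i : ι) (t : ℝ), P i ∧ M i *ᵥ ![rep x, 1] = t • ![rep (f x), 1]) : ¬ Near f id := by
  intro hn
  apply not_countable_circle
  have hc : (F ∪ {x | f x ≠ id x} ∪
      ⋃ i, ⋃ _ : P i, rep ⁻¹' {x : ℝ | ∃ t : ℝ, M i *ᵥ ![x, 1] = t • ![x, 1]}).Countable :=
    (hF.countable.union (Set.Finite.countable hn)).union (Set.countable_iUnion fun i =>
      Set.countable_iUnion fun hi => ((hM i hi).finite_fix.preimage rep_injective.injOn).countable)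
  refine hc.mono fun x _ => ?_
  by_cases h1 : x ∈ F
  · exact Or.inl (Or.inl h1)
  by_cases h2 : f x = x
  · obtain ⟨i, t, h3, h4⟩ := hf x h1
    rw [h2] at h4
    exact Or.inr (Set.mem_iUnion₂.2 ⟨i, h3, t, h4⟩)
  · exact Or.inl (Or.inr h2)

lemma word_not_lifts (hs : s ≠ 0) (hgen : ∀ D : List DLetter, D ≠ [] → Red (D.map Prod.fst) →
    NonScalar (matW α β s D)) {L : List Letter} (hred : Red L) (hnil : L ≠ []) :
    ¬ Lifts (word α β s L) 1 := by
  intro h1
  obtain ⟨f, hf, hloc⟩ := word_local α β hs L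
  refine not_near_one (matW α β s) (fun D => D.map Prod.fst = L) ?_ f ∅ Set.finite_empty ?_
    (hf.near h1)
  · intro D hD
    refine hgen D ?_ (hD ▸ hred)
    rintro rfl
    exact hnil hD.symm
  · intro x _
    obtain ⟨D, t, h2, -, h3⟩ := hloc x
    exact ⟨D, t, h2, h3⟩

theorem lam_faithful (hs : s ≠ 0) (hgen : ∀ D : List DLetter, D ≠ [] → Red (D.map Prod.fst) →
    NonScalar (matW α β s D)) {g : Perm S'} (hg : g ∈ Lam α β s) (h1 : Lifts g 1) : g = 1 := by
  obtain ⟨L0, hL⟩ := lam_form α β s hg
  obtain ⟨L, hred, hw⟩ := exists_red α β s L0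
  rw [← hw] at hL
  obtain ⟨f, hf, hloc⟩ := word_local α β hs L
  rcases hL with rfl | rfl
  · by_cases hnil : L = []
    · subst hnil; simp [word]
    · exact absurd h1 (word_not_lifts α β hs hgen hred hnil)
  · exfalso
    refine not_near_one (fun D => matW α β s D * !![-1, 1; 0, 1]) (fun _ => True) ?_
      (f * Equiv.neg S : Perm S) {0} (Set.finite_singleton _) ?_ ((hf.mul lifts_cT).near h1)
    · intro D _
      have hd : (matW α β s D * !![-1, 1; 0, 1]).det < 0 := by
        rw [Matrix.det_mul]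
        have := det_matW_pos α β hs D
        simp [Matrix.det_fin_two (A := !![(-1 : ℝ), 1; 0, 1]), this]
      by_contra hc
      unfold NonScalar at hc
      push Not at hc
      rw [Matrix.det_fin_two, hc.1, hc.2.1, hc.2.2] at hd
      nlinarith
    · intro x hx
      obtain ⟨D, t, -, -, h3⟩ := hloc (-x)
      refine ⟨D, t, trivial, ?_⟩
      have : !![(-1 : ℝ), 1; 0, 1] *ᵥ ![rep x, 1] = ![rep (-x), 1] := by
        rw [rep_neg hx]
        ext i
        fin_cases i <;> simp [Matrix.mulVec, dotProduct, Fin.sum_univ_two]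
        ring
      rw [← Matrix.mulVec_mulVec, this, h3]
      rfl

variable (s) in
/-- the full preimage of the example in the group of permutations of the circle -/
def Gam : Subgroup (Perm S) where
  carrier := {f | ∃ g ∈ Lam α β s, Lifts g f}
  one_mem' := ⟨1, one_mem _, lifts_one⟩
  mul_mem' := by
    rintro f f' ⟨g, hg, h⟩ ⟨g', hg', h'⟩
    exact ⟨g * g', mul_mem hg hg', h.mul h'⟩
  inv_mem' := by
    rintro f ⟨g, hg, h⟩
    exact ⟨g⁻¹, inv_mem hg, h.inv⟩

lemma lett0_free (hs : s ≠ 0) (hgen : ∀ D : List DLetter, D ≠ [] → Red (D.map Prod.fst) →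
    NonScalar (matW α β s D)) (b : Bool) (i j : ℤ) (hij : (i, j) ≠ (0, 0)) (x : S) :
    (lett0 α β s (b, (1, 0)) ^ i * lett0 α β s (b, (0, 1)) ^ j) x ≠ x := by
  let φ : Multiplicative (ℤ × ℤ) →* Perm S :=
    MonoidHom.mk' (fun p => lett0 α β s (b, p.toAdd)) fun p q => lett0_add α β s b _ _
  have h1 : lett0 α β s (b, (1, 0)) ^ i * lett0 α β s (b, (0, 1)) ^ j = lett0 α β s (b, (i, j)) := by
    show φ (Multiplicative.ofAdd (1, 0)) ^ i * φ (Multiplicative.ofAdd (0, 1)) ^ j =
      φ (Multiplicative.ofAdd (i, j))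
    rw [← map_zpow φ, ← map_zpow φ, ← map_mul φ, ← ofAdd_zsmul, ← ofAdd_zsmul, ← ofAdd_add]
    simp
  rw [h1]
  intro hx
  have h2 : lett0 α β s (b, (i, j)) = 1 := by
    cases b
    · simp only [lett0, Bool.false_eq_true, if_false, Equiv.coe_addRight, add_eq_left] at hx ⊢
      rw [hx]; ext y; simp
    · simp only [lett0, if_true] at hx ⊢
      have := cut_bperm ((val α β (i, j) / s : ℝ) : S) x
      rw [hx] at this
      have h3 := congrArg Prod.fst this
      simp only [left_eq_add] at h3
      rw [h3, bperm_zero]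
  refine word_not_lifts α β hs hgen (L := [(b, (i, j))]) hij (by simp) ?_
  have := lifts_lett α β s (b, (i, j))
  rw [h2] at this
  simpa [word] using this

theorem not_realizable (hs : s ≠ 0) (hgen : ∀ D : List DLetter, D ≠ [] → Red (D.map Prod.fst) →
    NonScalar (matW α β s D)) (Λ : Subgroup (Perm S))
    (h : ∀ f ∈ Gam α β s, ∃! g, g ∈ Λ ∧ Near g f) : False := by
  have hl : ∀ p, lett0 α β s p ∈ Gam α β s := fun p =>
    ⟨_, Subgroup.subset_closure (Or.inr ⟨p, rfl⟩), lifts_lett α β s p⟩
  have hc : Equiv.neg S ∈ Gam α β s := ⟨_, Subgroup.subset_closure (Or.inl rfl), lifts_cT⟩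
  have hcB : Near (Equiv.neg S) cB := by
    refine (Set.toFinite {0, half}).subset fun x hx => ?_
    by_contra hcon
    simp only [Set.mem_insert_iff, Set.mem_singleton_iff, not_or] at hcon
    exact hx (cB_eq hcon.1 hcon.2).symm
  have hc' : cB ∈ Gam α β s :=
    ⟨_, Subgroup.subset_closure (Or.inl rfl), lifts_cT.of_near hcB⟩
  have uniq : ∀ f ∈ Gam α β s, ∀ u ∈ Λ, ∀ v ∈ Λ, Near u f → Near v f → u = v :=
    fun f hf u hu v hv h1 h2 => (h f hf).unique ⟨hu, h1⟩ ⟨hv, h2⟩
  obtain ⟨c', ⟨hc1, hc2⟩, -⟩ := h _ hc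
  have comm : ∀ b p q, Commute (lett0 α β s (b, p)) (lett0 α β s (b, q)) := by
    intro b p q
    show _ * _ = _ * _
    rw [← lett0_add, ← lett0_add, add_comm]
  have key : ∀ (b : Bool) (c : Perm S), c ∈ Gam α β s → Near c' c →
      (c * lett0 α β s (b, (1, 0)) = lett0 α β s (b, (1, 0)) * c ∨
        c * lett0 α β s (b, (1, 0)) = (lett0 α β s (b, (1, 0)))⁻¹ * c) →
      ((∃ x, c x = x) ↔ ∃ x, c' x = x) := by
    intro b c h1 h2 h3
    obtain ⟨a', ⟨ha1, ha2⟩, -⟩ := h _ (hl (b, (1, 0)))
    obtain ⟨b', ⟨hb1, hb2⟩, -⟩ := h _ (hl (b, (0, 1)))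
    refine rigid_conj _ _ c a' b' c' (comm b (1, 0) (0, 1)) ?_ (lett0_free α β hs hgen b)
      ha2.symm hb2.symm h2.symm ?_
    · refine uniq _ (mul_mem (hl (b, (1, 0))) (hl (b, (0, 1)))) _ (mul_mem ha1 hb1) _
        (mul_mem hb1 ha1) (ha2.mul hb2) ?_
      rw [(comm b (1, 0) (0, 1)).eq]
      exact hb2.mul ha2
    · rcases h3 with h3 | h3
      · refine Or.inl ⟨h3, uniq _ (mul_mem h1 (hl (b, (1, 0)))) _ (mul_mem hc1 ha1) _
          (mul_mem ha1 hc1) (h2.mul ha2) ?_⟩
        rw [h3]; exact ha2.mul h2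
      · refine Or.inr ⟨h3, uniq _ (mul_mem h1 (hl (b, (1, 0)))) _ (mul_mem hc1 ha1) _
          (mul_mem (inv_mem ha1) hc1) (h2.mul ha2) ?_⟩
        rw [h3]; exact ha2.inv.mul h2
  have k1 := key false (Equiv.neg S) hc hc2 (Or.inr (by
    ext x; simp [lett0, add_comm]))
  have k2 := key true cB hc' (hc2.trans hcB) (Or.inl (by simp only [lett0, if_true, cB_comm]))
  obtain ⟨x, hx⟩ := k2.2 (k1.1 ⟨0, by simp⟩)
  exact cB_ne x hx

end Pool.Agent.MP_e3ce59_an.H41
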